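import Pool.Agent.Work.MP_0d206b_gt.Base

/-!
# MP_0d206b_gt: the definitions of the final statement

Closed 3-manifolds, Anosov flows, universal covers, the leaf spaces of the lifted weak foliations and the
negation of Q1.
-/

set_option autoImplicit false

open scoped Manifold ContDiff Topology
open Bundle

noncomputable section

namespace Pool.Agent.Work.MP_0d206b_gt

/-- A closed 3-manifold: a compact, connected, Hausdorff, smooth manifold without boundary, modelled on
`E = (ℝ × ℝ) × ℝ`. -/
structure Closed3 where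
  carrier : Type
  [top : TopologicalSpace carrier]
  [charted : ChartedSpace E carrier]
  [smooth : IsManifold 𝓘(ℝ, E) ∞ carrier]
  [compact : CompactSpace carrier]
  [t2 : T2Space carrier]
  [conn : ConnectedSpace carrier]

instance : CoeSort Closed3 Type := ⟨Closed3.carrier⟩

attribute [instance] Closed3.top Closed3.charted Closed3.smooth Closed3.compact Closed3.t2
  Closed3.conn

section Flow

variable (M : Type) [TopologicalSpace M] [ChartedSpace E M] [IsManifold 𝓘(ℝ, E) ∞ M]

/-- A smooth flow on `M`. -/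
structure SmoothFlow where
  /-- the time `t` map of the flow -/
  map : ℝ → M → M
  smooth : ContMDiff (𝓘(ℝ, ℝ).prod 𝓘(ℝ, E)) 𝓘(ℝ, E) ∞ (fun p : ℝ × M => map p.1 p.2)
  map_zero : ∀ x, map 0 x = x
  map_add : ∀ s t x, map (s + t) x = map s (map t x)

variable {M}

/-- the vector field which generates the flow: the derivative of `t ↦ φ t x` at `t = 0` -/
def SmoothFlow.gen (φ : SmoothFlow M) (x : M) : TangentSpace 𝓘(ℝ, E) x :=
  (mfderiv 𝓘(ℝ, ℝ) 𝓘(ℝ, E) (fun t => φ.map t x) 0 (1 : ℝ) : E)

/-- the derivative of the time `t` map of the flow -/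
def SmoothFlow.der (φ : SmoothFlow M) (t : ℝ) (x : M) :
    TangentSpace 𝓘(ℝ, E) x →L[ℝ] TangentSpace 𝓘(ℝ, E) (φ.map t x) :=
  mfderiv 𝓘(ℝ, E) 𝓘(ℝ, E) (φ.map t) x

/-- the length of a tangent vector for a Riemannian metric -/
def len (g : ContMDiffRiemannianMetric 𝓘(ℝ, E) ∞ E (fun x : M => TangentSpace 𝓘(ℝ, E) x)) (x : M)
    (v : TangentSpace 𝓘(ℝ, E) x) : ℝ :=
  Real.sqrt (g.inner x v v)

variable (M)

/-- An Anosov flow on `M`: a smooth flow together with its (continuous, invariant) splitting
`TM = E^s ⊕ ℝ X ⊕ E^u` into line fields, which are exponentially contracted by the flow in positive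
resp. negative time, for some Riemannian metric.  (The splitting is determined by the flow; on a compact
manifold the choice of the metric does not matter.) -/
structure AnosovFlow extends SmoothFlow M where
  /-- the stable line field -/
  Es : ∀ x : M, Submodule ℝ (TangentSpace 𝓘(ℝ, E) x)
  /-- the unstable line field -/
  Eu : ∀ x : M, Submodule ℝ (TangentSpace 𝓘(ℝ, E) x)
  rank_s : ∀ x, Module.finrank ℝ (Es x) = 1
  rank_u : ∀ x, Module.finrank ℝ (Eu x) = 1
  gen_ne : ∀ x, toSmoothFlow.gen x ≠ 0
  /-- the tangent space is the sum of the two lines and the direction of the flow (the sum is direct, as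
  the dimension is 3) -/
  split : ∀ x, Es x ⊔ Eu x ⊔ Submodule.span ℝ {toSmoothFlow.gen x} = ⊤
  /-- the two line fields are continuous, i.e. closed subsets of the tangent bundle -/
  closed_s : IsClosed {v : TangentBundle 𝓘(ℝ, E) M | v.2 ∈ Es v.1}
  closed_u : IsClosed {v : TangentBundle 𝓘(ℝ, E) M | v.2 ∈ Eu v.1}
  /-- the two line fields are invariant -/
  inv_s : ∀ t x, ∀ v ∈ Es x, toSmoothFlow.der t x v ∈ Es (map t x)
  inv_u : ∀ t x, ∀ v ∈ Eu x, toSmoothFlow.der t x v ∈ Eu (map t x)
  /-- exponential contraction in positive, resp. negative time -/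
  hyp : ∃ g : ContMDiffRiemannianMetric 𝓘(ℝ, E) ∞ E (fun x : M => TangentSpace 𝓘(ℝ, E) x),
    ∃ C > 0, ∃ a > 0, ∀ t ≥ 0, ∀ x,
      (∀ v ∈ Es x, len g (map t x) (toSmoothFlow.der t x v) ≤ C * Real.exp (-a * t) * len g x v) ∧
      (∀ v ∈ Eu x, len g (map (-t) x) (toSmoothFlow.der (-t) x v) ≤
        C * Real.exp (-a * t) * len g x v)

end Flow

/-- A universal cover of `M`: a covering by a simply connected space. -/
structure UnivCover (M : Type) [TopologicalSpace M] where
  carrier : Type
  [top : TopologicalSpace carrier]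
  [simply : SimplyConnectedSpace carrier]
  /-- the covering map -/
  proj : carrier → M
  isCovering : IsCoveringMap proj

attribute [instance] UnivCover.top UnivCover.simply

section Leaf

variable {M : Type} [TopologicalSpace M] [ChartedSpace E M] [IsManifold 𝓘(ℝ, E) ∞ M]

/-- Two points of the universal cover are joined by an arc tangent to the (lift of the) plane field `P`: a
continuous curve `c` whose projection to `M` is continuously differentiable and everywhere tangent to `P`. -/
def TangentArc (N : UnivCover M) (P : ∀ x : M, Submodule ℝ (TangentSpace 𝓘(ℝ, E) x))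
    (a b : N.carrier) : Prop :=
  ∃ c : ℝ → N.carrier, Continuous c ∧ c 0 = a ∧ c 1 = b ∧
    ContMDiff 𝓘(ℝ, ℝ) 𝓘(ℝ, E) 1 (fun t => N.proj (c t)) ∧
    ∀ t, (mfderiv 𝓘(ℝ, ℝ) 𝓘(ℝ, E) (fun t => N.proj (c t)) t (1 : ℝ) : E) ∈ P (N.proj (c t))

/-- the partition of the universal cover into the leaves of the (lifted) foliation tangent to the plane
field `P`: two points are in the same leaf iff they are joined by a finite chain of tangent arcs -/
def leafRel (N : UnivCover M) (P : ∀ x : M, Submodule ℝ (TangentSpace 𝓘(ℝ, E) x)) :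
    Setoid N.carrier :=
  Relation.EqvGen.setoid (TangentArc N P)

/-- the weak stable plane field `E^s ⊕ ℝ X` -/
def AnosovFlow.Pws (φ : AnosovFlow M) (x : M) : Submodule ℝ (TangentSpace 𝓘(ℝ, E) x) :=
  φ.Es x ⊔ Submodule.span ℝ {φ.toSmoothFlow.gen x}

/-- the weak unstable plane field `E^u ⊕ ℝ X` -/
def AnosovFlow.Pwu (φ : AnosovFlow M) (x : M) : Submodule ℝ (TangentSpace 𝓘(ℝ, E) x) :=
  φ.Eu x ⊔ Submodule.span ℝ {φ.toSmoothFlow.gen x}

/-- the stable leaf space: the universal cover modulo the leaves of the lifted weak stable foliation -/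
def StableLeafSpace (φ : AnosovFlow M) (N : UnivCover M) : Type := Quotient (leafRel N φ.Pws)

/-- the unstable leaf space -/
def UnstableLeafSpace (φ : AnosovFlow M) (N : UnivCover M) : Type := Quotient (leafRel N φ.Pwu)

instance (φ : AnosovFlow M) (N : UnivCover M) : TopologicalSpace (StableLeafSpace φ N) :=
  inferInstanceAs (TopologicalSpace (Quotient (leafRel N φ.Pws)))

instance (φ : AnosovFlow M) (N : UnivCover M) : TopologicalSpace (UnstableLeafSpace φ N) :=
  inferInstanceAs (TopologicalSpace (Quotient (leafRel N φ.Pwu)))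

end Leaf

/-- The negation of Q1: there are two Anosov flows on closed 3-manifolds with homeomorphic stable leaf spaces
and non-homeomorphic unstable leaf spaces (universal covers exist, and the statement holds for every choice
of them). -/
def MainStatement : Prop :=
  ∃ (M₁ M₂ : Closed3) (φ₁ : AnosovFlow M₁) (φ₂ : AnosovFlow M₂),
    Nonempty (UnivCover M₁) ∧ Nonempty (UnivCover M₂) ∧
    ∀ (N₁ : UnivCover M₁) (N₂ : UnivCover M₂),
      Nonempty (StableLeafSpace φ₁ N₁ ≃ₜ StableLeafSpace φ₂ N₂) ∧
      IsEmpty (UnstableLeafSpace φ₁ N₁ ≃ₜ UnstableLeafSpace φ₂ N₂)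

end Pool.Agent.Work.MP_0d206b_gt
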