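import Pool.Agent.Work.MP_0d206b_gt.Good
import Pool.Agent.Work.MP_0d206b_gt.Bd.StL
import Pool.Agent.Work.MP_0d206b_gt.Bd.StU

/-! MP_0d206b_gt: final assembly (skeleton: everything which is not proved here is a hypothesis) -/

set_option autoImplicit false

open Set Filter Topology

noncomputable section

namespace Pool.Agent.Work.MP_0d206b_gt

/-- module M/H, generic part: good gluing data are realised by an Anosov flow on a closed 3-manifold, and every
universal cover carries cover data with the right leaf relations -/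
def StRealize : Prop := ∀ (ι Γ : Type) [Group Γ] (dom : ι → Set E) (glue : ι → E → ι → E → Prop)
  (iact : Γ → ι → ι) (act : Γ → ι → E → E) (es eu : ι → E → E), Good dom glue iact act es eu →
  ∃ (M : Closed3) (φ : AnosovFlow M), ∀ N : UnivCover M, GoodN N.carrier ∧
    ∃ C : CoverData dom glue N.carrier, leafRel N φ.Pws = leafSetoid C es ∧ leafRel N φ.Pwu = leafSetoid C eu

/-- module G: universal covers of closed 3-manifolds exist -/
def StGU : Prop := ∀ M : Closed3, Nonempty (UnivCover M)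

/-- module M, concrete part -/
def GoodFlow0 : Prop := ∀ D : DA, Good dom0 (glue0 D) iact0 (act0 D) (es0 D) (eu0 D)
def GoodFlowA : Prop := ∀ D : DA, Good domA (glueA D) iactA (actA D) (esA D) (euA D)

/-- module D -/
def StDA : Prop := Nonempty DA

theorem main (hD : StDA) (h0 : GoodFlow0) (hA : GoodFlowA) (hR : StRealize) (hGU : StGU)
    (h013 : L013) (h015 : L015) (h24 : LA24) (hU2 : LU2) (hU : U.StFinalU.{0, 0}) : MainStatement := by
  obtain ⟨D⟩ := hD
  obtain ⟨M₁, φ₁, h₁⟩ := hR _ _ _ _ _ _ _ _ (h0 D)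
  obtain ⟨M₂, φ₂, h₂⟩ := hR _ _ _ _ _ _ _ _ (hA D)
  refine ⟨M₁, M₂, φ₁, φ₂, hGU M₁, hGU M₂, fun N₁ N₂ => ?_⟩
  obtain ⟨g₁, C₁, e₁, e₁'⟩ := h₁ N₁
  obtain ⟨g₂, C₂, e₂, e₂'⟩ := h₂ N₂
  haveI := g₁
  haveI := g₂
  have w1 : IsW2 (StableLeafSpace φ₁ N₁) := by
    have := h013 D N₁.carrier C₁
    rw [← e₁] at this
    exact this
  have w1' : IsW2 (UnstableLeafSpace φ₁ N₁) := by
    have := h015 D N₁.carrier C₁
    rw [← e₁'] at this
    exact this
  have w2 : IsW2 (StableLeafSpace φ₂ N₂) := by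
    have := h24 D N₂.carrier C₂
    rw [← e₂] at this
    exact this
  have w2' : ∃ a b c : UnstableLeafSpace φ₂ N₂, NS a b ∧ NS b c ∧ NS a c := by
    have := hU2 D N₂.carrier C₂
    rw [← e₂'] at this
    exact this
  refine ⟨hU w1 w2, ⟨fun h => ?_⟩⟩
  obtain ⟨a, b, c, hab, hbc, hac⟩ := w2'
  have tr : ∀ x y : UnstableLeafSpace φ₂ N₂, NS x y → NS (h.symm x) (h.symm y) := by
    intro x y hxy
    refine ⟨fun e => hxy.1 (h.symm.injective e), fun U V hU' hV' hxU hyV => ?_⟩
    obtain ⟨z, hz1, hz2⟩ := hxy.2 (h.symm ⁻¹' U) (h.symm ⁻¹' V) (hU'.preimage h.symm.continuous)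
      (hV'.preimage h.symm.continuous) hxU hyV
    exact ⟨h.symm z, hz1, hz2⟩
  have sab := tr a b hab
  have sbc := tr b c hbc
  have sac := tr a c hac
  rcases w1'.types (h.symm a) with h' | ⟨y, z, hyz, hnyz, hall⟩
  · exact h' _ sab
  · have hb := (hall _).1 sab
    have hc := (hall _).1 sac
    have hne : h.symm b ≠ h.symm c := sbc.1
    have symm : ∀ p q : UnstableLeafSpace φ₁ N₁, NS p q → NS q p := by
      intro p q hpq
      refine ⟨hpq.1.symm, fun U V hU' hV' hq hp => ?_⟩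
      obtain ⟨r, hr1, hr2⟩ := hpq.2 V U hV' hU' hp hq
      exact ⟨r, hr2, hr1⟩
    rcases hb with hb | hb <;> rcases hc with hc | hc
    · exact hne (hb.trans hc.symm)
    · rw [hb, hc] at sbc; exact hnyz sbc
    · rw [hb, hc] at sbc; exact hnyz (symm _ _ sbc)
    · exact hne (hb.trans hc.symm)

end Pool.Agent.Work.MP_0d206b_gt
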