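import Mathlib

/-!
# MP_0d206b_gt: base definitions (see PROOF.md)

`P2 = ℝ × ℝ`, `E = P2 × ℝ` with coordinates `((x, y), τ)`.  `DA` is the abstract interface of module D
(the DA map `F`, the linearisation `Psi` of the unstable set of a source, the slope field `S`), the two flows
are given by pieces `dom`, a gluing relation `glue`, spanning vectors `es`, `eu` of the two line fields and the
action of the group `Grp = Γ ⋊ ℤ`.  `CoverData` is the interface between the manifold modules (M, H) and the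
leaf space modules (L, B).
-/

open Set Filter Topology
open scoped ContDiff

noncomputable section

namespace Pool.Agent.Work.MP_0d206b_gt

/-- the plane -/
abbrev P2 : Type := ℝ × ℝ

/-- the model space, coordinates `((x, y), τ)` -/
abbrev E : Type := P2 × ℝ

/-- `λ = φ²`, `φ` the golden ratio -/
def lam : ℝ := Real.goldenRatio ^ 2

/-- logarithm to the base `λ` -/
def llog (r : ℝ) : ℝ := Real.log r / Real.log lam

/-- square of the Euclidean norm (the instance norm of `ℝ × ℝ` is the sup norm) -/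
def nsq (v : P2) : ℝ := v.1 ^ 2 + v.2 ^ 2

/-- the lattice `{(i + jφ, i + jψ)}` -/
def Gam : AddSubgroup P2 where
  carrier := {z | ∃ i j : ℤ, z = (i + j * Real.goldenRatio, i + j * Real.goldenConj)}
  add_mem' := by
    rintro a b ⟨i, j, rfl⟩ ⟨i', j', rfl⟩
    refine ⟨i + i', j + j', ?_⟩
    ext <;> simp <;> ring
  zero_mem' := ⟨0, 0, by ext <;> simp⟩
  neg_mem' := by
    rintro a ⟨i, j, rfl⟩
    refine ⟨-i, -j, ?_⟩
    ext <;> simp <;> ring

/-- the linear map `diag(λ^j, λ^(-j))` -/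
def Lz (j : ℤ) (z : P2) : P2 := (lam ^ j * z.1, lam ^ (-j) * z.2)

/-- partial derivatives of the second component of a plane map -/
def dx (f : P2 → P2) (z : P2) : ℝ := (fderiv ℝ f z (1, 0)).2
def dy (f : P2 → P2) (z : P2) : ℝ := (fderiv ℝ f z (0, 1)).2

/-- complement of all strips `m + Psi(ℝ²)`, `m ∈ Γ` -/
def LamOf (Psi : P2 → P2) : Set P2 := {z | ∀ m ∈ Gam, ∀ v, z ≠ m + Psi v}

/-- Interface of module D: the DA map and its slope field. -/
structure DA where
  F : P2 → P2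
  Finv : P2 → P2
  Psi : P2 → P2
  S : P2 → ℝ
  F_smooth : ContDiff ℝ ∞ F
  Finv_smooth : ContDiff ℝ ∞ Finv
  F_Finv : ∀ z, F (Finv z) = z
  Finv_F : ∀ z, Finv (F z) = z
  F_fst : ∀ z, (F z).1 = lam * z.1
  F_add : ∀ z, ∀ m ∈ Gam, F (z + m) = F z + Lz 1 m
  F_zero : F 0 = 0
  dyF_pos : ∀ z, 0 < dy F z
  /-- (D5) forward orbits off the lattice contract the vertical direction -/
  contr : ∀ z, z ∉ Gam → Tendsto (fun n : ℕ => ∏ k ∈ Finset.range n, dy F (F^[k] z)) atTop (𝓝 0)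
  /-- (D5) forward orbits off the lattice stay away from the lattice -/
  away : ∀ z, z ∉ Gam → ∃ r > 0, ∀ n : ℕ, ∀ m ∈ Gam, r ≤ dist (F^[n] z) m
  Psi_smooth : ContDiff ℝ ∞ Psi
  Psi_fst : ∀ v, (Psi v).1 = v.1
  dyPsi_pos : ∀ v, 0 < dy Psi v
  dyPsi_le : ∀ v, dy Psi v ≤ 1
  F_Psi : ∀ v, F (Psi v) = Psi (lam • v)
  /-- `Psi` is the identity near `0` -/
  Psi_near : ∃ r > 0, ∀ v : P2, ‖v‖ < r → Psi v = v
  Psi_bdd : ∀ v, |(Psi v).2| ≤ 1 / 8
  /-- (D7) the strips are pairwise disjoint -/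
  strips_disj : ∀ m ∈ Gam, ∀ m' ∈ Gam, ∀ v v', m + Psi v = m' + Psi v' → m = m'
  /-- (D8) vertical order of the strips -/
  order : ∀ m ∈ Gam, ∀ m' ∈ Gam, ∀ v v', m.2 < m'.2 → (m + Psi v).1 = (m' + Psi v').1 →
    (m + Psi v).2 < (m' + Psi v').2
  /-- (D9) the strips are dense on every vertical line -/
  dens : ∀ z : P2, ∀ ε > 0, ∃ m ∈ Gam, ∃ v, (m + Psi v).1 = z.1 ∧ |(m + Psi v).2 - z.2| < ε
  /-- (D13) contraction at the complement of the strips -/
  dyPsi_tendsto : ∀ z ∈ LamOf Psi, ∀ ε > 0, ∃ δ > 0, ∀ m ∈ Gam, ∀ v,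
    dist (m + Psi v) z < δ → dy Psi v < ε
  /-- (D13) bounded distortion -/
  distort : ∃ C, ∀ v : P2, |deriv (fun t => dy Psi (v.1, t)) v.2| ≤ C * dy Psi v
  S_cont : Continuous S
  S_bdd : ∃ C, ∀ z, |S z| ≤ C
  S_add : ∀ z, ∀ m ∈ Gam, S (z + m) = S z
  S_lip : ∃ K, ∀ x y y', |S (x, y) - S (x, y')| ≤ K * |y - y'|
  S_F : ∀ z, S (F z) = (dx F z + dy F z * S z) / lam
  /-- horizontals in the linear coordinate are `S`-curves -/
  dxPsi : ∀ v, dx Psi v = S (Psi v)

namespace DA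

variable (D : DA)

/-- the complement of the strips -/
def Lam : Set P2 := LamOf D.Psi

/-- `F` as a permutation of the plane -/
def Fe : Equiv.Perm P2 := ⟨D.F, D.Finv, D.Finv_F, D.F_Finv⟩

/-- the lattice point of the strip containing `z` (`0` off the strips) -/
def idx (z : P2) : P2 := open Classical in
  if h : ∃ m ∈ Gam, ∃ v, z = m + D.Psi v then h.choose else 0

/-- the linear coordinate of `z` in its strip (`0` off the strips) -/
def lin (z : P2) : P2 := open Classical in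
  if h : ∃ m ∈ Gam, ∃ v, z = m + D.Psi v then h.choose_spec.2.choose else 0

end DA

/-- slope field `2 v₁ v₂ / |v|²` -/
def S0 (v : P2) : ℝ := 2 * v.1 * v.2 / nsq v

namespace DA

variable (D : DA)

/-- (D13) the slope field of the stable foliation of flow a in the piece `R` -/
def sigma (z : P2) : ℝ := open Classical in
  if z ∈ D.Lam then D.S z else D.S z + dy D.Psi (D.lin z) * S0 (D.lin z)

/-- (D14) -/
def K0 (z : P2) : ℝ := open Classical in
  if z ∈ D.Lam then 0 else 2 * (D.lin z).1 / (Real.log lam * nsq (D.lin z))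

/-- (D14) -/
def Ka (z : P2) : ℝ := open Classical in
  if z ∈ D.Lam then 0 else
    8 * (D.lin z).1 * (D.lin z).2 ^ 2 / (Real.log lam * nsq (D.lin z) ^ 2)

end DA

/-- (D15) the gluing map from the half plane `v₂ > 0` onto the slit plane -/
def gmap (v : P2) : P2 := ((v.1 ^ 2 - v.2 ^ 2) / v.2, 2 * v.1)

/-- its inverse -/
def gminv (w : P2) : P2 := (w.2 / 2, (Real.sqrt (nsq w) - w.1) / 2)

/-- sign of the attractor `A s` -/
def sg (s : Bool) : ℝ := if s then 1 else -1

/-! ### Flow 0 -/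

inductive Idx0 : Type
  | R : Idx0
  | A : Idx0
  deriving DecidableEq

def dom0 : Idx0 → Set E := fun _ => {e | e.1 ∉ Gam}

/-- `(R, m + Ψ(v), τ) ~ (A, m + Ψ(v₂, v₁), τ - 2 log|v|)` for `v ≠ 0` -/
def glue0RA (D : DA) (e e' : E) : Prop :=
  ∃ m ∈ Gam, ∃ v : P2, v ≠ 0 ∧ e.1 = m + D.Psi v ∧ e'.1 = m + D.Psi (v.2, v.1) ∧
    e'.2 = e.2 - llog (nsq v)

def glue0 (D : DA) : Idx0 → E → Idx0 → E → Prop
  | .R, e, .R, e' => e = e'
  | .R, e, .A, e' => glue0RA D e e'
  | .A, e, .R, e' => glue0RA D e' e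
  | .A, e, .A, e' => e = e'

def es0 (D : DA) : Idx0 → E → E
  | .R, e => ((1, D.S e.1), D.K0 e.1)
  | .A, _ => ((0, 1), 0)

def eu0 (D : DA) : Idx0 → E → E
  | .R, _ => ((0, 1), 0)
  | .A, e => ((1, D.S e.1), - D.K0 e.1)

/-! ### Flow a -/

inductive IdxA : Type
  | R : IdxA
  | A (s : Bool) : IdxA
  | g (m : Gam) : IdxA

def domA : IdxA → Set E
  | .R => {e | e.1 ∉ Gam}
  | .A _ => {e | e.1 ∉ Gam}
  | .g _ => univ

/-- `(R, m + Ψ(v), τ) ~ (A s, s m + Ψ(g(s v)), τ - 2 log|g(s v)|)` for `s v₂ > 0` -/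
def glueRA (D : DA) (s : Bool) (e e' : E) : Prop :=
  ∃ m ∈ Gam, ∃ v : P2, 0 < sg s * v.2 ∧ e.1 = m + D.Psi v ∧
    e'.1 = sg s • m + D.Psi (gmap (sg s • v)) ∧ e'.2 = e.2 - llog (nsq (gmap (sg s • v)))

/-- `(R, m + Ψ(v), τ) ~ (γ_m, v₂ / (v₁² - v₂²), 2 v₁, τ)` for `|v₂| < |v₁|` -/
def glueRg (D : DA) (m : Gam) (e e' : E) : Prop :=
  ∃ v : P2, |v.2| < |v.1| ∧ e.1 = (m : P2) + D.Psi v ∧
    e'.1 = (v.2 / (v.1 ^ 2 - v.2 ^ 2), 2 * v.1) ∧ e'.2 = e.2

/-- `(A s, s m + Ψ(w), τ) ~ (γ_m, s / w₁, s w₂, τ + 2 log|w|)` for `w₁ > 0` -/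
def glueAg (D : DA) (s : Bool) (m : Gam) (e e' : E) : Prop :=
  ∃ w : P2, 0 < w.1 ∧ e.1 = sg s • (m : P2) + D.Psi w ∧
    e'.1 = (sg s / w.1, sg s * w.2) ∧ e'.2 = e.2 + llog (nsq w)

def glueA (D : DA) : IdxA → E → IdxA → E → Prop
  | .R, e, .R, e' => e = e'
  | .R, e, .A s, e' => glueRA D s e e'
  | .R, e, .g m, e' => glueRg D m e e'
  | .A s, e, .R, e' => glueRA D s e' e
  | .A s, e, .A s', e' => s = s' ∧ e = e'
  | .A s, e, .g m, e' => glueAg D s m e e'
  | .g m, e, .R, e' => glueRg D m e' e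
  | .g m, e, .A s, e' => glueAg D s m e' e
  | .g m, e, .g m', e' => m = m' ∧ e = e'

def esA (D : DA) : IdxA → E → E
  | .R, e => ((1, D.sigma e.1), D.Ka e.1)
  | .A _, _ => ((0, 1), 0)
  | .g _, e => ((0, 1), 2 * e.1.2 * e.1.1 ^ 2 / (Real.log lam * (1 + e.1.1 ^ 2 * e.1.2 ^ 2)))

def euA (D : DA) : IdxA → E → E
  | .R, _ => ((0, 1), 0)
  | .A _, e => ((1, D.S e.1), - D.K0 e.1)
  | .g _, _ => ((1, 0), 0)

/-! ### The group `Γ ⋊ ℤ` and its action (`(n, j)` = first `t^j`, then the translation by `n`) -/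

theorem lam_pos : 0 < lam := by unfold lam; positivity

theorem Lz_add' (j : ℤ) (a b : P2) : Lz j (a + b) = Lz j a + Lz j b := by
  ext <;> simp [Lz] <;> ring

theorem Lz_comp (j k : ℤ) (a : P2) : Lz j (Lz k a) = Lz (j + k) a := by
  have h := lam_pos.ne'
  ext
  · simp only [Lz]; rw [zpow_add₀ h]; ring
  · simp only [Lz]; rw [neg_add, zpow_add₀ h]; ring

theorem lam_mul_phi : lam = Real.goldenRatio + 1 := Real.goldenRatio_sq

theorem lam_inv : lam⁻¹ = Real.goldenConj ^ 2 := by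
  have h : lam * Real.goldenConj ^ 2 = 1 := by
    unfold lam
    have := Real.goldenRatio_mul_goldenConj
    calc Real.goldenRatio ^ 2 * Real.goldenConj ^ 2
        = (Real.goldenRatio * Real.goldenConj) ^ 2 := by ring
      _ = 1 := by rw [this]; norm_num
  exact (eq_inv_of_mul_eq_one_right h).symm

theorem Lz_one_mem {z : P2} (hz : z ∈ Gam) : Lz 1 z ∈ Gam := by
  obtain ⟨i, j, rfl⟩ := hz
  refine ⟨i + j, i + 2 * j, ?_⟩
  have h1 : lam = Real.goldenRatio + 1 := Real.goldenRatio_sq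
  have h2 : lam⁻¹ = Real.goldenConj + 1 := by rw [lam_inv]; exact Real.goldenConj_sq
  have h3 := Real.goldenRatio_sq
  have h4 := Real.goldenConj_sq
  ext
  · simp only [Lz, zpow_one, h1]; push_cast; linear_combination (j : ℝ) * h3
  · simp only [Lz, zpow_neg, zpow_one, h2]; push_cast; linear_combination (j : ℝ) * h4

theorem Lz_negone_mem {z : P2} (hz : z ∈ Gam) : Lz (-1) z ∈ Gam := by
  obtain ⟨i, j, rfl⟩ := hz
  refine ⟨2 * i - j, j - i, ?_⟩
  have h1 : lam = Real.goldenRatio + 1 := Real.goldenRatio_sq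
  have h2 : lam⁻¹ = Real.goldenConj + 1 := by rw [lam_inv]; exact Real.goldenConj_sq
  have h3 := Real.goldenRatio_sq
  have h4 := Real.goldenConj_sq
  have h5 := Real.goldenRatio_add_goldenConj
  have h6 : Real.goldenConj = 1 - Real.goldenRatio := by linarith
  have h7 : Real.goldenRatio = 1 - Real.goldenConj := by linarith
  ext
  · simp only [Lz, zpow_neg, zpow_one, h2]; push_cast
    linear_combination ((i : ℝ) + j * Real.goldenRatio) * h6 - (j : ℝ) * h3
  · simp only [Lz, neg_neg, zpow_one, h1]; push_cast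
    linear_combination ((i : ℝ) + j * Real.goldenConj) * h7 - (j : ℝ) * h4

theorem Lz_zero' (z : P2) : Lz 0 z = z := by ext <;> simp [Lz]

theorem Lz_mem (j : ℤ) {z : P2} (hz : z ∈ Gam) : Lz j z ∈ Gam := by
  induction j using Int.induction_on with
  | zero => rw [Lz_zero']; exact hz
  | succ i ih => rw [add_comm, ← Lz_comp]; exact Lz_one_mem ih
  | pred i ih => rw [sub_eq_add_neg, add_comm, ← Lz_comp]; exact Lz_negone_mem ih

/-- the group `Γ ⋊ ℤ` -/
@[ext] structure Grp : Type where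
  n : Gam
  j : ℤ

namespace Grp

def LG (j : ℤ) (m : Gam) : Gam := ⟨Lz j m, Lz_mem j m.2⟩

theorem LG_add (j : ℤ) (a b : Gam) : LG j (a + b) = LG j a + LG j b :=
  Subtype.ext (Lz_add' j a b)

theorem LG_LG (j k : ℤ) (a : Gam) : LG j (LG k a) = LG (j + k) a := Subtype.ext (Lz_comp j k a)

theorem LG_zero (a : Gam) : LG 0 a = a := Subtype.ext (Lz_zero' a)

instance : Group Grp where
  mul a b := ⟨a.n + LG a.j b.n, a.j + b.j⟩
  one := ⟨0, 0⟩
  inv a := ⟨LG (-a.j) (-a.n), -a.j⟩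
  mul_assoc a b c := by
    apply Grp.ext
    · show (a.n + LG a.j b.n) + LG (a.j + b.j) c.n = a.n + LG a.j (b.n + LG b.j c.n)
      rw [LG_add, LG_LG, add_assoc]
    · show a.j + b.j + c.j = a.j + (b.j + c.j)
      ring
  one_mul a := by
    apply Grp.ext
    · show 0 + LG 0 a.n = a.n
      rw [LG_zero, zero_add]
    · show 0 + a.j = a.j
      ring
  mul_one a := by
    apply Grp.ext
    · show a.n + LG a.j 0 = a.n
      have : LG a.j 0 = 0 := Subtype.ext (by ext <;> simp [LG, Lz])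
      rw [this, add_zero]
    · show a.j + 0 = a.j
      ring
  inv_mul_cancel a := by
    apply Grp.ext
    · show LG (-a.j) (-a.n) + LG (-a.j) a.n = 0
      rw [← LG_add, neg_add_cancel]
      exact Subtype.ext (by ext <;> simp [LG, Lz])
    · show -a.j + a.j = 0
      ring

end Grp

/-- action on the indices and on the coordinates -/
def iact0 (_ : Grp) (i : Idx0) : Idx0 := i

def act0 (D : DA) (a : Grp) : Idx0 → E → E
  | .R, e => ((D.Fe ^ a.j) e.1 + (a.n : P2), e.2 + a.j)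
  | .A, e => ((D.Fe ^ a.j) e.1 + (a.n : P2), e.2 - a.j)

def iactA (a : Grp) : IdxA → IdxA
  | .R => .R
  | .A s => .A s
  | .g m => .g (Grp.LG a.j m + a.n)

def actA (D : DA) (a : Grp) : IdxA → E → E
  | .R, e => ((D.Fe ^ a.j) e.1 + (a.n : P2), e.2 + a.j)
  | .A s, e => ((D.Fe ^ a.j) e.1 + sg s • (a.n : P2), e.2 - a.j)
  | .g _, e => ((lam ^ (-a.j) * e.1.1, lam ^ a.j * e.1.2), e.2 + a.j)

/-! ### Interface between the manifold and the leaf space modules -/

/-- A space `N` covered by open sets `U i`, each a covering space of the piece `dom i` through the coordinate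
map `c i`, the pieces being glued by the relation `glue`. -/
structure CoverData {ι : Type} (dom : ι → Set E) (glue : ι → E → ι → E → Prop)
    (N : Type) [TopologicalSpace N] where
  U : ι → Set N
  c : ι → N → E
  isOpen_U : ∀ i, IsOpen (U i)
  maps : ∀ i, MapsTo (c i) (U i) (dom i)
  cov : ∀ i, IsCoveringMap ((maps i).restrict (c i) (U i) (dom i))
  cover : ∀ b, ∃ i, b ∈ U i
  glue_lift : ∀ i j b e, b ∈ U i → glue i (c i b) j e → b ∈ U j ∧ c j b = e
  glue_of : ∀ i j b, b ∈ U i → b ∈ U j → glue i (c i b) j (c j b)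

section Leaf

variable {ι : Type} {dom : ι → Set E} {glue : ι → E → ι → E → Prop} {N : Type} [TopologicalSpace N]

/-- the plane spanned by `w i e` and the flow direction -/
def plane (w : ι → E → E) (i : ι) (e : E) : Submodule ℝ E :=
  Submodule.span ℝ {w i e, ((0, 0), 1)}

/-- `C¹` arcs tangent to the plane field `plane w` -/
structure IsArc (C : CoverData dom glue N) (w : ι → E → E) (γ : ℝ → N) : Prop where
  cont : Continuous γ
  smooth : ∀ t i, γ t ∈ C.U i → ContDiffAt ℝ 1 (C.c i ∘ γ) t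
  tang : ∀ t i, γ t ∈ C.U i → deriv (C.c i ∘ γ) t ∈ plane w i (C.c i (γ t))

/-- two points are in the same leaf iff they are joined by a chain of tangent arcs -/
def leafSetoid (C : CoverData dom glue N) (w : ι → E → E) : Setoid N :=
  Relation.EqvGen.setoid (fun a b => ∃ γ, IsArc C w γ ∧ γ 0 = a ∧ γ 1 = b)

/-- the leaf space with the quotient topology -/
def LeafSp (C : CoverData dom glue N) (w : ι → E → E) : Type := Quotient (leafSetoid C w)

instance (C : CoverData dom glue N) (w : ι → E → E) : TopologicalSpace (LeafSp C w) :=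
  inferInstanceAs (TopologicalSpace (Quotient (leafSetoid C w)))

end Leaf

end Pool.Agent.Work.MP_0d206b_gt
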