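import Pool.Agent.Work.MP_0d206b_gt.Final
import Pool.Agent.Work.MP_0d206b_gt.Et.Act

/-!
# MP_0d206b_gt: the list of properties of the gluing data from which the closed 3-manifold, the Anosov flow and
the `CoverData` of its universal covers are constructed
-/

set_option autoImplicit false

open Set Filter Topology
open scoped ContDiff

noncomputable section

namespace Pool.Agent.Work.MP_0d206b_gt

open MP0d206b.Et (shift)

variable {ι : Type} {Γ : Type} [Group Γ]

/-- the gluing relation is an etale equivalence relation on the pieces, which is closed and invariant under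
the flow `shift` -/
structure GoodGlue (dom : ι → Set E) (glue : ι → E → ι → E → Prop) : Prop where
  isOpen_dom : ∀ i, IsOpen (dom i)
  dom_shift : ∀ i e s, e ∈ dom i → shift s e ∈ dom i
  glue_self : ∀ i e e', glue i e i e' ↔ e = e'
  glue_dom : ∀ i e j e', e ∈ dom i → glue i e j e' → e' ∈ dom j
  glue_symm : ∀ i e j e', glue i e j e' → glue j e' i e
  glue_trans : ∀ i e j e' k e'', glue i e j e' → glue j e' k e'' → glue i e k e''
  glue_shift : ∀ i e j e' s, glue i e j e' → glue i (shift s e) j (shift s e')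
  /-- (M1) the relation is closed -/
  closed : ∀ i j (e e' : E) (x y : ℕ → E), e ∈ dom i → e' ∈ dom j → Tendsto x atTop (𝓝 e) →
    Tendsto y atTop (𝓝 e') → (∀ n, glue i (x n) j (y n)) → glue i e j e'

/-- the spanning vectors of the two line fields are continuous, invariant under the flow, independent of each
other and of the flow direction, and compatible with the (smooth) gluing maps -/
structure GoodField (dom : ι → Set E) (glue : ι → E → ι → E → Prop) (es eu : ι → E → E) : Prop where
  es_cont : ∀ i, ContinuousOn (es i) (dom i)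
  eu_cont : ∀ i, ContinuousOn (eu i) (dom i)
  es_shift : ∀ i e s, es i (shift s e) = es i e
  eu_shift : ∀ i e s, eu i (shift s e) = eu i e
  indep : ∀ i e, e ∈ dom i →
    (es i e).1.1 * (eu i e).1.2 - (es i e).1.2 * (eu i e).1.1 ≠ 0
  /-- the gluing relation is locally the graph of a smooth map, whose derivative maps the lines to the lines
  -/
  compat : ∀ i e j e', e ∈ dom i → glue i e j e' → ∃ g : E → E, ContDiffAt ℝ ∞ g e ∧ g e = e' ∧
    (∀ᶠ z in 𝓝 e, glue i z j (g z)) ∧
    (∃ c : ℝ, c ≠ 0 ∧ fderiv ℝ g e (es i e) = c • es j e') ∧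
    (∃ c : ℝ, c ≠ 0 ∧ fderiv ℝ g e (eu i e) = c • eu j e')

/-- the group acts by diffeomorphisms of the pieces, freely and properly discontinuously, with a compact
fundamental set, and preserves the two line fields -/
structure GoodAct (dom : ι → Set E) (glue : ι → E → ι → E → Prop) (iact : Γ → ι → ι)
    (act : Γ → ι → E → E) (es eu : ι → E → E) : Prop where
  act_dom : ∀ a i e, e ∈ dom i → act a i e ∈ dom (iact a i)
  act_smooth : ∀ a i e, e ∈ dom i → ContDiffAt ℝ ∞ (act a i) e
  iact_one : ∀ i, iact 1 i = i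
  act_one : ∀ i e, act 1 i e = e
  iact_mul : ∀ a b i, iact (a * b) i = iact a (iact b i)
  act_mul : ∀ a b i e, act (a * b) i e = act a (iact b i) (act b i e)
  act_glue : ∀ a i e j e', glue i e j e' → glue (iact a i) (act a i e) (iact a j) (act a j e')
  act_shift : ∀ a i e s, act a i (shift s e) = shift s (act a i e)
  /-- (M2) -/
  free : ∀ a i e, e ∈ dom i → glue (iact a i) (act a i e) i e → a = 1
  /-- (M3) -/
  pd : ∀ i j (e e' : E) (x y : ℕ → E) (a : ℕ → Γ), e ∈ dom i → e' ∈ dom j →
    Tendsto x atTop (𝓝 e) → Tendsto y atTop (𝓝 e') →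
    (∀ n, glue (iact (a n) i) (act (a n) i (x n)) j (y n)) → (range a).Finite
  /-- (M4) -/
  compact : ∃ (s : Finset ι) (K : ι → Set E), (∀ i ∈ s, IsCompact (K i) ∧ K i ⊆ dom i) ∧
    ∀ i, ∀ e ∈ dom i, ∃ a, ∃ j ∈ s, ∃ e' ∈ K j, glue (iact a i) (act a i e) j e'
  /-- (H2) -/
  es_act : ∀ a i e, e ∈ dom i →
    ∃ c : ℝ, c ≠ 0 ∧ fderiv ℝ (act a i) e (es i e) = c • es (iact a i) (act a i e)
  eu_act : ∀ a i e, e ∈ dom i →
    ∃ c : ℝ, c ≠ 0 ∧ fderiv ℝ (act a i) e (eu i e) = c • eu (iact a i) (act a i e)

/-- (H4) pointwise contraction of the line field `w` in the direction `ε` of time (`ε = 1` or `ε = -1`): every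
point is glued to a point `e'` whose orbit returns infinitely often, up to the group, to a compact set in
such a way that the vector `w` is contracted -/
def GoodContr (dom : ι → Set E) (glue : ι → E → ι → E → Prop) (iact : Γ → ι → ι)
    (act : Γ → ι → E → E) (w : ι → E → E) (ε : ℝ) : Prop :=
  ∀ i, ∀ e ∈ dom i, ∃ i' e', glue i e i' e' ∧ ∃ (j : ι) (K : Set E), IsCompact K ∧ K ⊆ dom j ∧
    ∀ δ > 0, ∃ t > 0, ∃ a, iact a i' = j ∧ act a i' (shift (ε * t) e') ∈ K ∧
      ∃ c : ℝ, |c| < δ ∧ fderiv ℝ (act a i') (shift (ε * t) e') (w i' e') =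
        c • w j (act a i' (shift (ε * t) e'))

/-- (M5) connectedness -/
structure GoodConn (dom : ι → Set E) (glue : ι → E → ι → E → Prop) : Prop where
  nonempty : Nonempty ι
  conn : ∀ i, IsPathConnected (dom i)
  chain : ∀ i j, Relation.ReflTransGen (fun i j => ∃ e ∈ dom i, ∃ e' ∈ dom j, glue i e j e') i j

/-- all properties -/
structure Good (dom : ι → Set E) (glue : ι → E → ι → E → Prop) (iact : Γ → ι → ι)
    (act : Γ → ι → E → E) (es eu : ι → E → E) : Prop extends GoodGlue dom glue,
    GoodField dom glue es eu, GoodAct dom glue iact act es eu, GoodConn dom glue where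
  contr_s : GoodContr dom glue iact act es 1
  contr_u : GoodContr dom glue iact act eu (-1)

end Pool.Agent.Work.MP_0d206b_gt
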