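import Mathlib

/-!
# MP_0d206b_gt: the definitions of the statement

Closed 3-manifolds, Anosov flows, universal covers, the leaf spaces of the lifted weak foliations.
-/

set_option autoImplicit false

open scoped Manifold ContDiff Topology
open Bundle

noncomputable section

namespace Pool.Agent.Work.MP_0d206b_gt.St

/-- the model space of the 3-manifolds -/
abbrev R3 : Type := (ℝ × ℝ) × ℝ

/-- A closed 3-manifold: a compact, connected, Hausdorff, smooth manifold without boundary, modelled on
`(ℝ × ℝ) × ℝ`. -/
structure Closed3 where
  carrier : Type
  [top : TopologicalSpace carrier]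
  [charted : ChartedSpace R3 carrier]
  [smooth : IsManifold 𝓘(ℝ, R3) ∞ carrier]
  [compact : CompactSpace carrier]
  [t2 : T2Space carrier]
  [conn : ConnectedSpace carrier]

attribute [instance] Closed3.top Closed3.charted Closed3.smooth Closed3.compact Closed3.t2
  Closed3.conn

section Flow

variable {M : Type} [TopologicalSpace M] [ChartedSpace R3 M]

/-- the tangent space at `x` -/
abbrev Tan (x : M) : Type := TangentSpace 𝓘(ℝ, R3) x

variable (M) in
/-- a field of linear subspaces of the tangent spaces -/
abbrev LinField : Type := ∀ x : M, Submodule ℝ (TangentSpace 𝓘(ℝ, R3) x)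

/-- the tangent vector `v` at `x` belongs to the field `P` -/
def InField (P : LinField M) (x : M) (v : Tan x) : Prop := v ∈ P x

/-- the dimension of the field `P` at `x` -/
def rank (P : LinField M) (x : M) : ℕ := Module.finrank ℝ (P x)

/-- the sum of two fields -/
def sum (P Q : LinField M) : LinField M := fun x => P x ⊔ Q x

variable (M) in
/-- A smooth flow on `M`. -/
structure Flow where
  /-- the time `t` map of the flow -/
  map : ℝ → M → M
  smooth : ContMDiff (𝓘(ℝ, ℝ).prod 𝓘(ℝ, R3)) 𝓘(ℝ, R3) ∞ (fun p : ℝ × M => map p.1 p.2)
  map_zero : ∀ x, map 0 x = x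
  map_add : ∀ s t x, map (s + t) x = map s (map t x)

/-- the vector field `X` which generates the flow: the derivative of `t ↦ φ t x` at `t = 0` -/
def gen (φ : Flow M) (x : M) : Tan x :=
  (mfderiv 𝓘(ℝ, ℝ) 𝓘(ℝ, R3) (fun t => φ.map t x) 0 (1 : ℝ) : R3)

/-- the derivative of the time `t` map of the flow at `x`, applied to the tangent vector `v` -/
def der (φ : Flow M) (t : ℝ) (x : M) (v : Tan x) : Tan (φ.map t x) :=
  mfderiv 𝓘(ℝ, R3) 𝓘(ℝ, R3) (φ.map t) x v

/-- the direction `ℝ X` of the flow -/
def dir (φ : Flow M) : LinField M := fun x => Submodule.span ℝ {gen φ x}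

/-- the field `P` is invariant under the flow -/
def Invariant (φ : Flow M) (P : LinField M) : Prop :=
  ∀ (t : ℝ) (x : M) (v : Tan x), InField P x v → InField P (φ.map t x) (der φ t x v)

variable [IsManifold 𝓘(ℝ, R3) ∞ M]

/-- the field `P` is a closed subset of the tangent bundle (for a field of constant rank this means that
it is continuous) -/
def Closed (P : LinField M) : Prop := IsClosed {v : TangentBundle 𝓘(ℝ, R3) M | InField P v.1 v.2}

variable (M) in
/-- a smooth Riemannian metric on `M` -/
abbrev Metric : Type := ContMDiffRiemannianMetric 𝓘(ℝ, R3) ∞ R3 (fun x : M => TangentSpace 𝓘(ℝ, R3) x)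

/-- the length of a tangent vector for a Riemannian metric -/
def len (g : Metric M) (x : M) (v : Tan x) : ℝ := Real.sqrt (g.inner x v v)

/-- the vectors of `P` are contracted exponentially, with constants `C` and `a`, as time goes to `+∞` (for
`ε = 1`) resp. to `-∞` (for `ε = -1`) -/
def Contracts (φ : Flow M) (g : Metric M) (P : LinField M) (ε C a : ℝ) : Prop :=
  ∀ (t : ℝ) (x : M) (v : Tan x), 0 ≤ t → InField P x v →
    len g (φ.map (ε * t) x) (der φ (ε * t) x v) ≤ C * Real.exp (-a * t) * len g x v

variable (M) in
/-- An Anosov flow on the 3-manifold `M`: a smooth flow together with its continuous and invariant splitting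
`TM = E^s ⊕ E^u ⊕ ℝ X` into line fields, the first of which is exponentially contracted in positive time and
the second in negative time, for some Riemannian metric.  (The splitting is determined by the flow, and on a
compact manifold the choice of the metric does not matter.) -/
structure Anosov where
  flow : Flow M
  /-- the stable line field -/
  Es : LinField M
  /-- the unstable line field -/
  Eu : LinField M
  rank_s : ∀ x, rank Es x = 1
  rank_u : ∀ x, rank Eu x = 1
  /-- the tangent space is the (direct) sum of the two lines and the direction of the flow; in particular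
  the flow has no fixed points -/
  split : ∀ x, rank (sum (sum Es Eu) (dir flow)) x = 3
  closed_s : Closed Es
  closed_u : Closed Eu
  inv_s : Invariant flow Es
  inv_u : Invariant flow Eu
  hyp : ∃ (g : Metric M) (C a : ℝ), 0 < C ∧ 0 < a ∧ Contracts flow g Es 1 C a ∧ Contracts flow g Eu (-1) C a

/-- the weak stable plane field `E^s ⊕ ℝ X` -/
def weakStable (φ : Anosov M) : LinField M := sum φ.Es (dir φ.flow)

/-- the weak unstable plane field `E^u ⊕ ℝ X` -/
def weakUnstable (φ : Anosov M) : LinField M := sum φ.Eu (dir φ.flow)

end Flow

/-- A universal cover of `M`: a covering by a simply connected space. -/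
structure UnivCover (M : Type) [TopologicalSpace M] where
  carrier : Type
  [top : TopologicalSpace carrier]
  [simply : SimplyConnectedSpace carrier]
  /-- the covering map -/
  proj : carrier → M
  isCovering : IsCoveringMap proj

attribute [instance] UnivCover.top UnivCover.simply

section Leaf

variable {M : Type} [TopologicalSpace M] [ChartedSpace R3 M]

/-- the velocity vector at time `t` of a curve in `M` -/
def vel (c : ℝ → M) (t : ℝ) : Tan (c t) := (mfderiv 𝓘(ℝ, ℝ) 𝓘(ℝ, R3) c t (1 : ℝ) : R3)

/-- the curve `c` in `M` is continuously differentiable and everywhere tangent to `P` -/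
def Tangent (P : LinField M) (c : ℝ → M) : Prop :=
  ContMDiff 𝓘(ℝ, ℝ) 𝓘(ℝ, R3) 1 c ∧ ∀ t, InField P (c t) (vel c t)

/-- the points `a` and `b` of the universal cover are joined by an arc tangent to the lift of the plane field
`P`: a continuous curve whose projection to `M` is continuously differentiable and tangent to `P` -/
def JoinedByArc (N : UnivCover M) (P : LinField M) (a b : N.carrier) : Prop :=
  ∃ c : ℝ → N.carrier, Continuous c ∧ c 0 = a ∧ c 1 = b ∧ Tangent P (fun t => N.proj (c t))

/-- the partition of the universal cover into the leaves of the lifted foliation tangent to the plane field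
`P`: two points are in the same leaf iff they are joined by a finite chain of tangent arcs -/
def leaves (N : UnivCover M) (P : LinField M) : Setoid N.carrier :=
  Relation.EqvGen.setoid (JoinedByArc N P)

/-- the leaf space: the quotient of the universal cover by the partition into leaves, with the quotient
topology -/
abbrev LeafSpace (N : UnivCover M) (P : LinField M) : Type := Quotient (leaves N P)

end Leaf

end Pool.Agent.Work.MP_0d206b_gt.St
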